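import Pool.Agent.Lib_helper16.RA.Main
import Pool.Agent.Lib_helper75.RACox

/-!
MP_20f8ce_gt : every right-angled polytope in hyperbolic 6-space has volume at least the volume
`π³/15` of the Coxeter polytope `P^6` of the congruence two subgroup `Γ^6_2` of the group of
positive Lorentzian integer matrices.
-/

open MeasureTheory

namespace Pool.Agent.Results.MP_20f8ce_gt.RightAngled

/-- `ℝ^7`, written as `ℝ^6 × ℝ` (the last coordinate is the time coordinate `x_7`). -/
abbrev E := (Fin 6 → ℝ) × ℝ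

/-- The Lorentzian form `x_1 y_1 + ⋯ + x_6 y_6 - x_7 y_7`. -/
def B (x y : E) : ℝ := (∑ i, x.1 i * y.1 i) - x.2 * y.2

/-- Hyperbolic 6-space, hyperboloid model (upper sheet). -/
def H6 : Set E := {x | B x x = -1 ∧ 0 < x.2}

/-- Hyperbolic volume of a subset of `H^6`: the volume element is `dx_1 ⋯ dx_6 / √(1 + |x|²)` in
the coordinates `(x_1, …, x_6)`. -/
noncomputable def vol (A : Set E) : ENNReal :=
  ∫⁻ u in Prod.fst '' (A ∩ H6), ENNReal.ofReal (1 / Real.sqrt (1 + ∑ i, u i ^ 2))

/-- `P` is a right-angled polytope in `H^6`: it is the intersection of finitely many half-spaces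
`B x (e i) ≤ 0` with unit normals `e i`, it has interior points, no half-space is redundant (so
that the hyperplanes are those of the sides of `P`), any two of these hyperplanes which meet in
`H^6` are orthogonal, and the volume is finite. -/
def IsRightAngledPolytope (P : Set E) : Prop :=
  ∃ (k : ℕ) (e : Fin k → E),
    (∀ i, B (e i) (e i) = 1) ∧
    P = {x | x ∈ H6 ∧ ∀ i, B x (e i) ≤ 0} ∧
    (∃ x ∈ H6, ∀ i, B x (e i) < 0) ∧
    (∀ i, ∃ x ∈ H6, 0 < B x (e i) ∧ ∀ j, j ≠ i → B x (e j) ≤ 0) ∧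
    (∀ i j, i ≠ j → (∃ x ∈ H6, B x (e i) = 0 ∧ B x (e j) = 0) → B (e i) (e j) = 0) ∧
    vol P < ⊤

/-- Vectors with integer coordinates. -/
def IsInt (x : E) : Prop := (∀ i, ∃ k : ℤ, x.1 i = k) ∧ ∃ k : ℤ, x.2 = k

/-- Elements of the group `Γ^6_2`: linear maps which preserve the Lorentzian form and the upper
sheet of the hyperboloid, and whose matrix is an integer matrix congruent to the identity modulo
2 (every integer vector is changed by twice an integer vector). -/
def InGamma62 (g : E →ₗ[ℝ] E) : Prop :=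
  (∀ x y, B (g x) (g y) = B x y) ∧ (∀ x ∈ H6, g x ∈ H6) ∧
    ∀ x, IsInt x → ∃ z, IsInt z ∧ g x = x + (2 : ℝ) • z

/-- `P` is the Coxeter polytope of `Γ^6_2`, that is, a fundamental polytope of `Γ^6_2` bounded by
the mirrors of a set of generating reflections `r i` (with unit normals `f i`): the `r i` belong to
`Γ^6_2` and generate it, each point of `H^6` can be moved into `P` by an element of `Γ^6_2`, and
only the identity moves an interior point of `P` into `P`. -/
def IsCoxeterPolytope (P : Set E) : Prop :=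
  ∃ (k : ℕ) (f : Fin k → E) (r : Fin k → (E →ₗ[ℝ] E)),
    (∀ i, B (f i) (f i) = 1) ∧
    (∀ i x, r i x = x - (2 * B x (f i)) • f i) ∧
    P = {x | x ∈ H6 ∧ ∀ i, B x (f i) ≤ 0} ∧
    (∃ x ∈ H6, ∀ i, B x (f i) < 0) ∧
    (∀ i, InGamma62 (r i)) ∧
    (∀ g : Module.End ℝ E, InGamma62 g → g ∈ Submonoid.closure (Set.range r)) ∧
    (∀ x ∈ H6, ∃ g, InGamma62 g ∧ g x ∈ P) ∧
    (∀ g, InGamma62 g → ∀ x ∈ H6, (∀ i, B x (f i) < 0) → g x ∈ P → g = LinearMap.id)

lemma isCoxeterPolytope_iff (P : Set E) :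
    IsCoxeterPolytope P ↔ Pool.Agent.RA.IsCoxeterPolytope P := by
  constructor
  · rintro ⟨k, f, r, h1, h2, h3, h4, h5, h6, h7, h8⟩
    have hr : ∀ i, r i = Pool.Agent.RA.refl (f i) := by
      intro i
      apply LinearMap.ext
      intro x
      rw [h2, Pool.Agent.RA.refl_apply]
      show x - (2 * B x (f i)) • f i = x - (2 * B x (f i) / B (f i) (f i)) • f i
      rw [h1, div_one]
    obtain rfl : r = fun i => Pool.Agent.RA.refl (f i) := funext hr
    exact ⟨k, f, h1, h3, h4, h5, h6, h7, h8⟩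
  · rintro ⟨k, f, h1, h3, h4, h5, h6, h7, h8⟩
    refine ⟨k, f, fun i => Pool.Agent.RA.refl (f i), h1, ?_, h3, h4, h5, h6, h7, h8⟩
    intro i x
    rw [Pool.Agent.RA.refl_apply]
    show x - (2 * B x (f i) / B (f i) (f i)) • f i = x - (2 * B x (f i)) • f i
    rw [show B (f i) (f i) = 1 from h1 i, div_one]

/-- The group `Γ^6_2` has a Coxeter polytope `P^6`. It is a right-angled polytope of volume
`π³/15`, and every right-angled polytope in `H^6` has at least this volume. -/
theorem result :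
    (∃ P6, IsCoxeterPolytope P6) ∧
    ∀ P6, IsCoxeterPolytope P6 →
      IsRightAngledPolytope P6 ∧ vol P6 = ENNReal.ofReal (Real.pi ^ 3 / 15) ∧
      ∀ P, IsRightAngledPolytope P → vol P6 ≤ vol P := by
  refine ⟨⟨_, (isCoxeterPolytope_iff _).2 Pool.Agent.RA.isCoxeterPolytope_P27⟩, fun C hC => ?_⟩
  obtain ⟨h1, h2⟩ := Pool.Agent.RA.coxeter_volume ((isCoxeterPolytope_iff C).1 hC)
  refine ⟨h1, h2, fun P hP => ?_⟩
  have h3 : ENNReal.ofReal (Real.pi ^ 3 / 15) ≤ vol P := Pool.Agent.RA.hvol_ge hP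
  exact (le_of_eq h2).trans h3

end Pool.Agent.Results.MP_20f8ce_gt.RightAngled
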